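import Pool.Agent.Q120.GL.Stm
import Pool.Agent.Y151.HS.FLC
import Pool.Agent.H373R2.T7.Crt

/-!
# Project GL, job FL
-/

set_option autoImplicit false

namespace Pool.Agent.Q274.GL

open Finset Pool.Agent.Q120.HL Pool.Agent.Q120.GL
open Pool.Agent.Y843.HS (Pr Sv S_FLC)

/-- the forbidden classes -/
def Om (n w w' p : ℕ) : Finset ℕ := if p < w then {0, n % p} else if p < w' then {n % p} else ∅

theorem Om_lt {n w w' p : ℕ} (hp : 0 < p) : ∀ c ∈ Om n w w' p, c < p := by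
  intro c hc
  unfold Om at hc
  split_ifs at hc with h1 h2
  · rcases mem_insert.1 hc with h | h
    · omega
    · rw [mem_singleton.1 h]
      exact Nat.mod_lt _ hp
  · rw [mem_singleton.1 hc]
    exact Nat.mod_lt _ hp
  · simp at hc

theorem Om_card_le (n w w' p : ℕ) : (Om n w w' p).card ≤ 2 := by
  unfold Om
  split_ifs
  · exact card_le_two
  · simp
  · simp

theorem Om_iff {n w w' p m : ℕ} (hw : w ≤ w') : m % p ∉ Om n w w' p ↔ (p < w' → m % p ≠ n % p ∧ (p < w → m % p ≠ 0)) := by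
  unfold Om
  by_cases h1 : p < w
  · have h2 : p < w' := by omega
    simp only [h1, h2, if_true, mem_insert, mem_singleton, true_imp_iff, not_or]
    tauto
  · by_cases h2 : p < w'
    · simp only [h1, h2, if_true, if_false, mem_singleton, true_imp_iff, false_imp_iff, and_true]
    · simp [h1, h2]

theorem Om_cardf {n w w' p : ℕ} : (Om n w w' p).card = if p < w then nu {0, n} p else if p < w' then 1 else 0 := by
  unfold Om nu
  by_cases h1 : p < w
  · simp [h1]
  · by_cases h2 : p < w'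
    · simp [h1, h2]
    · simp [h1, h2]

theorem dd_eq {n w w' s R : ℕ} (hw : w ≤ w') (hR : w' ≤ R) :
    (∏ p ∈ Pr 0 s, (1 - ((Om n w w' p).card : ℝ) / p)) * ∏ p ∈ Pr s R, (1 - ((Om n w w' p).card : ℝ) / p) = dd n w w' := by
  have h1 : Disjoint (Pr 0 s) (Pr s R) := by
    rw [disjoint_left]
    intro p hp hp2
    have := (mem_Ioc.1 (mem_filter.1 hp).1).2
    have := (mem_Ioc.1 (mem_filter.1 hp2).1).1
    omega
  rw [← prod_union h1]
  have h2 : (range w').filter Nat.Prime ⊆ Pr 0 s ∪ Pr s R := by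
    intro p hp
    have h3 := mem_range.1 (mem_filter.1 hp).1
    have h4 := (mem_filter.1 hp).2
    have h5 := h4.pos
    rw [mem_union]
    by_cases h6 : p ≤ s
    · left
      exact mem_filter.2 ⟨mem_Ioc.2 ⟨h5, h6⟩, h4⟩
    · right
      exact mem_filter.2 ⟨mem_Ioc.2 ⟨by omega, by omega⟩, h4⟩
  rw [← prod_subset h2]
  · have h3 : (range w').filter Nat.Prime = (range w).filter Nat.Prime ∪ (Ico w w').filter Nat.Prime := by
      rw [← filter_union, range_eq_Ico, range_eq_Ico, Ico_union_Ico_eq_Ico (Nat.zero_le _) hw]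
    have h4 : Disjoint ((range w).filter Nat.Prime) ((Ico w w').filter Nat.Prime) := by
      rw [disjoint_left]
      intro p hp hp2
      have := mem_range.1 (mem_filter.1 hp).1
      have := (mem_Ico.1 (mem_filter.1 hp2).1).1
      omega
    rw [h3, prod_union h4]
    unfold dd
    congr 1
    · refine prod_congr rfl (fun p hp => ?_)
      have := mem_range.1 (mem_filter.1 hp).1
      rw [Om_cardf, if_pos this]
    · refine prod_congr rfl (fun p hp => ?_)
      have := mem_Ico.1 (mem_filter.1 hp).1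
      rw [Om_cardf, if_neg (by omega), if_pos this.2]
      simp
  · intro p hp hp2
    have h3 : p.Prime := by
      rcases mem_union.1 hp with h | h
      · exact (mem_filter.1 h).2
      · exact (mem_filter.1 h).2
    have h4 : ¬ p < w' := fun h => hp2 (mem_filter.2 ⟨mem_range.2 h, h3⟩)
    rw [Om_cardf, if_neg (by omega), if_neg h4]
    simp

theorem err {w' D e J : ℕ} (hJ : J = 0 ∨ 2 ^ 2 ^ (J - 1) < w') :
    (D : ℝ) * ((2 : ℝ) ^ 2 ^ J) ^ e ≤ (w' : ℝ) ^ (3 * e + D) + ((D * 3 ^ e : ℕ) : ℝ) := by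
  have hn : D * (2 ^ 2 ^ J) ^ e ≤ w' ^ (3 * e + D) + D * 3 ^ e := by
    by_cases hw : w' < 2
    · have hJ0 : J = 0 := by
        rcases hJ with h | h
        · exact h
        · have : 2 ^ 1 ≤ 2 ^ 2 ^ (J - 1) := Nat.pow_le_pow_right (by norm_num) Nat.one_le_two_pow
          omega
      subst hJ0
      have h1 : (2 ^ 2 ^ 0) ^ e ≤ 3 ^ e := Nat.pow_le_pow_left (by norm_num) e
      calc D * (2 ^ 2 ^ 0) ^ e ≤ D * 3 ^ e := Nat.mul_le_mul_left _ h1
        _ ≤ _ := Nat.le_add_left _ _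
    · have hw2 : 2 ≤ w' := by omega
      have h1 : 2 ^ 2 ^ J ≤ w' ^ 3 := by
        rcases hJ with h | h
        · subst h
          calc 2 ^ 2 ^ 0 = 2 := by norm_num
            _ ≤ w' := hw2
            _ ≤ w' ^ 3 := Nat.le_self_pow (by norm_num) _
        · by_cases hJ0 : J = 0
          · subst hJ0
            calc 2 ^ 2 ^ 0 = 2 := by norm_num
              _ ≤ w' := hw2
              _ ≤ w' ^ 3 := Nat.le_self_pow (by norm_num) _
          · obtain ⟨j, rfl⟩ := Nat.exists_eq_succ_of_ne_zero hJ0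
            have e1 : 2 ^ 2 ^ (j + 1) = (2 ^ 2 ^ j) ^ 2 := by
              rw [← pow_mul, pow_succ 2 j]
            simp only [Nat.succ_eq_add_one, Nat.add_sub_cancel] at h
            rw [Nat.succ_eq_add_one, e1]
            calc (2 ^ 2 ^ j) ^ 2 ≤ w' ^ 2 := Nat.pow_le_pow_left h.le 2
              _ ≤ w' ^ 3 := Nat.pow_le_pow_right (by omega) (by norm_num)
      have h2 : D ≤ w' ^ D := by
        calc D ≤ 2 ^ D := Nat.lt_two_pow_self.le
          _ ≤ w' ^ D := Nat.pow_le_pow_left hw2 D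
      calc D * (2 ^ 2 ^ J) ^ e ≤ w' ^ D * (w' ^ 3) ^ e := Nat.mul_le_mul h2 (Nat.pow_le_pow_left h1 e)
        _ = w' ^ (3 * e + D) := by
            rw [← pow_mul, ← pow_add, Nat.add_comm]
        _ ≤ _ := Nat.le_add_right _ _
  exact_mod_cast hn

theorem exJ (w' : ℕ) : ∃ J : ℕ, w' ≤ 2 ^ 2 ^ J ∧ (J = 0 ∨ 2 ^ 2 ^ (J - 1) < w') := by
  have hex : ∃ J : ℕ, w' ≤ 2 ^ 2 ^ J := by
    refine ⟨w', ?_⟩
    calc w' ≤ 2 ^ w' := Nat.lt_two_pow_self.le
      _ ≤ 2 ^ 2 ^ w' := Nat.pow_le_pow_right (by norm_num) Nat.lt_two_pow_self.le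
  classical
  refine ⟨Nat.find hex, Nat.find_spec hex, ?_⟩
  by_cases h : Nat.find hex = 0
  · exact Or.inl h
  · right
    have := Nat.find_min hex (m := Nat.find hex - 1) (by omega)
    omega

/-- the elements in the class of `a` -/
def Gs (n w w' s R D A X a : ℕ) : Finset ℕ := (Ioc A (A + X)).filter (fun x => x % D = a % D ∧
      ∀ p ∈ Pr s R, x % p ∉ Om n w w' p)

/-- **Job FL.** -/
theorem t_FL : J_FL := by
  intro κ hκ
  obtain ⟨C, hC, hF⟩ := Pool.Agent.Y151.HS.flc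
  obtain ⟨b0, hb0⟩ := exists_pow_lt_of_lt_one hκ (show (1 / 2 : ℝ) < 1 by norm_num)
  set b := b0 + C * 3 with hb
  have hbκ : (1 / 2 : ℝ) ^ b ≤ κ := by
    refine le_trans ?_ hb0.le
    exact pow_le_pow_of_le_one (by norm_num) (by norm_num) (by omega)
  set s0 := C * 3 with hs0
  set D := ∏ p ∈ Pr 0 s0, p with hD
  have hprP : ∀ p ∈ Pr 0 s0, p.Prime := fun p hp => (mem_filter.1 hp).2
  have hD1 : 1 ≤ D := Nat.one_le_iff_ne_zero.2 (prod_ne_zero_iff.2 (fun p hp => (hprP p hp).ne_zero))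
  have hDr : (0 : ℝ) < D := by exact_mod_cast hD1
  refine ⟨3 * (C * b) + D, D * 3 ^ (C * b), by omega, fun w w' hw n A X => ?_⟩
  obtain ⟨J, hJ1, hJ2⟩ := exJ w'
  have hcop : ∀ p ∈ Pr s0 (2 ^ 2 ^ J), ¬ p ∣ D := by
    intro p hp hd
    have hpp := (mem_filter.1 hp).2
    obtain ⟨q, hq, hpq⟩ := (Prime.dvd_finsetProd_iff hpp.prime _).1 hd
    have := (Nat.prime_dvd_prime_iff_eq hpp (hprP q hq)).1 hpq
    have h1 := (mem_Ioc.1 (mem_filter.1 hp).1).1
    have h2 := (mem_Ioc.1 (mem_filter.1 hq).1).2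
    omega
  have hSv : Sv 2 s0 (2 ^ 2 ^ J) (Om n w w') := fun p hp =>
    ⟨Om_card_le _ _ _ _, Om_lt ((mem_filter.1 hp).2.pos)⟩
  set S := (range D).filter (fun a => ∀ p ∈ Pr 0 s0, a % p ∉ Om n w w' p) with hS
  set F := (Ioc A (A + X)).filter (fun m => ∀ p ∈ (range w').filter Nat.Prime, m % p ≠ n % p ∧ (p < w → m % p ≠ 0)) with hFd
  set G : ℕ → Finset ℕ := fun a => Gs n w w' s0 (2 ^ 2 ^ J) D A X a with hG
  have hFG : F = S.biUnion G := by
    ext m
    rw [hFd, mem_biUnion, mem_filter]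
    constructor
    · rintro ⟨h1, h2⟩
      refine ⟨m % D, ?_, ?_⟩
      · rw [hS, mem_filter, mem_range]
        refine ⟨Nat.mod_lt _ hD1, fun p hp => ?_⟩
        rw [Nat.mod_mod_of_dvd _ (dvd_prod_of_mem _ hp)]
        rw [Om_iff hw]
        exact fun h3 => h2 p (mem_filter.2 ⟨mem_range.2 h3, hprP p hp⟩)
      · simp only [hG, Gs, mem_filter]
        refine ⟨h1, (Nat.mod_mod _ _).symm, fun p hp => ?_⟩
        rw [Om_iff hw]
        exact fun h3 => h2 p (mem_filter.2 ⟨mem_range.2 h3, (mem_filter.1 hp).2⟩)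
    · rintro ⟨a, ha, hm⟩
      rw [hS, mem_filter, mem_range] at ha
      simp only [hG, Gs, mem_filter] at hm
      refine ⟨hm.1, fun p hp => ?_⟩
      have hpw := mem_range.1 (mem_filter.1 hp).1
      have hpp := (mem_filter.1 hp).2
      by_cases h6 : p ≤ s0
      · have hp0 : p ∈ Pr 0 s0 := mem_filter.2 ⟨mem_Ioc.2 ⟨hpp.pos, h6⟩, hpp⟩
        have h7 := ha.2 p hp0
        have hpD : p ∣ D := dvd_prod_of_mem _ hp0
        have h8 : m % p = a % p := by
          rw [← Nat.mod_mod_of_dvd m hpD, hm.2.1, Nat.mod_mod_of_dvd _ hpD]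
        rw [← h8] at h7
        exact (Om_iff hw).1 h7 hpw
      · exact (Om_iff hw).1 (hm.2.2 p (mem_filter.2 ⟨mem_Ioc.2 ⟨by omega, by omega⟩, hpp⟩)) hpw
  have hcard : F.card = ∑ a ∈ S, (G a).card := by
    rw [hFG, card_biUnion]
    intro a ha a' ha' hne
    have ha1 := mem_range.1 (mem_filter.1 ha).1
    have ha2 := mem_range.1 (mem_filter.1 ha').1
    change Disjoint (G a) (G a')
    rw [disjoint_left]
    intro x hx hx'
    have h1 := (mem_filter.1 hx).2.1
    have h2 := (mem_filter.1 hx').2.1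
    rw [Nat.mod_eq_of_lt ha1] at h1
    rw [Nat.mod_eq_of_lt ha2] at h2
    exact hne (by omega)
  have hScard : (S.card : ℝ) / D = ∏ p ∈ Pr 0 s0, (1 - ((Om n w w' p).card : ℝ) / p) := by
    have h1 := Pool.Agent.H373R2.T7.crt_card (fun p a => a ∉ Om n w w' p) (Pr 0 s0) hprP
    rw [← hD] at h1
    have h2 : S.card = ∏ p ∈ Pr 0 s0, ((range p).filter (fun a => a ∉ Om n w w' p)).card := by
      rw [← h1]
    rw [h2, hD]
    push_cast
    rw [← prod_div_distrib]
    refine prod_congr rfl (fun p hp => ?_)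
    have hp0 : (p : ℝ) ≠ 0 := by exact_mod_cast (hprP p hp).ne_zero
    have h3 : (range p).filter (fun a => a ∉ Om n w w' p) = range p \ Om n w w' p := by
      ext x
      simp [mem_sdiff]
    have h4 : Om n w w' p ⊆ range p := fun c hc => mem_range.2 (Om_lt (hprP p hp).pos c hc)
    rw [h3, card_sdiff_of_subset h4, card_range, Nat.cast_sub (by
      have := card_le_card h4
      rwa [card_range] at this), sub_div, div_self hp0]
  set V := ∏ p ∈ Pr s0 (2 ^ 2 ^ J), (1 - ((Om n w w' p).card : ℝ) / p) with hV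
  have hdd := dd_eq (n := n) (w := w) (w' := w') (s := s0) (R := 2 ^ 2 ^ J) hw hJ1
  rw [← hScard, ← hV] at hdd
  have key : ∀ a ∈ S, |((G a).card : ℝ) - (X : ℝ) / D * V| ≤ (1 / 2 : ℝ) ^ b * ((X : ℝ) / D * V) + ((2 : ℝ) ^ 2 ^ J) ^ (C * b) := by
    intro a _
    have := hF 2 b s0 J (by omega) (by omega) (Om n w w') hSv D a A X hD1 hcop
    simp only [hG, Gs]
    convert this
  have hsum : |(F.card : ℝ) - S.card * ((X : ℝ) / D * V)| ≤
      S.card * ((1 / 2 : ℝ) ^ b * ((X : ℝ) / D * V) + ((2 : ℝ) ^ 2 ^ J) ^ (C * b)) := by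
    have h1 : (F.card : ℝ) - S.card * ((X : ℝ) / D * V) = ∑ a ∈ S, (((G a).card : ℝ) - (X : ℝ) / D * V) := by
      rw [hcard, sum_sub_distrib, sum_const, nsmul_eq_mul]
      push_cast
      rfl
    rw [h1]
    calc |∑ a ∈ S, (((G a).card : ℝ) - (X : ℝ) / D * V)| ≤ ∑ a ∈ S, |((G a).card : ℝ) - (X : ℝ) / D * V| := abs_sum_le_sum_abs _ _
      _ ≤ ∑ a ∈ S, ((1 / 2 : ℝ) ^ b * ((X : ℝ) / D * V) + ((2 : ℝ) ^ 2 ^ J) ^ (C * b)) := sum_le_sum key
      _ = _ := by rw [sum_const, nsmul_eq_mul]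
  have hXdd : (S.card : ℝ) * ((X : ℝ) / D * V) = X * dd n w w' := by
    rw [← hdd]
    field_simp
  have hdd0 : 0 ≤ (X : ℝ) * dd n w w' := by
    refine mul_nonneg (Nat.cast_nonneg _) ?_
    rw [← hdd]
    refine mul_nonneg (by positivity) (prod_nonneg (fun p hp => ?_))
    have hpp := (mem_filter.1 hp).2
    have hp0 : (0 : ℝ) < p := by exact_mod_cast hpp.pos
    rw [sub_nonneg, div_le_one hp0]
    have h4 : Om n w w' p ⊆ range p := fun c hc => mem_range.2 (Om_lt hpp.pos c hc)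
    have := card_le_card h4
    rw [card_range] at this
    exact_mod_cast this
  have hScD : (S.card : ℝ) ≤ D := by
    have h5 : S.card ≤ D := by
      calc S.card ≤ (range D).card := card_filter_le _ _
        _ = D := card_range _
    exact_mod_cast h5
  rw [hXdd] at hsum
  have hfin : |(F.card : ℝ) - X * dd n w w'| ≤ κ * (X * dd n w w') + ((w' : ℝ) ^ (3 * (C * b) + D) + ((D * 3 ^ (C * b) : ℕ) : ℝ)) := by
   calc |(F.card : ℝ) - X * dd n w w'| ≤ S.card * ((1 / 2 : ℝ) ^ b * ((X : ℝ) / D * V) + ((2 : ℝ) ^ 2 ^ J) ^ (C * b)) := hsum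
    _ = (1 / 2 : ℝ) ^ b * (S.card * ((X : ℝ) / D * V)) + S.card * ((2 : ℝ) ^ 2 ^ J) ^ (C * b) := by ring
    _ = (1 / 2 : ℝ) ^ b * (X * dd n w w') + S.card * ((2 : ℝ) ^ 2 ^ J) ^ (C * b) := by rw [hXdd]
    _ ≤ κ * (X * dd n w w') + D * ((2 : ℝ) ^ 2 ^ J) ^ (C * b) := by
        refine add_le_add (mul_le_mul_of_nonneg_right hbκ hdd0) (mul_le_mul_of_nonneg_right hScD (by positivity))
    _ ≤ κ * (X * dd n w w') + ((w' : ℝ) ^ (3 * (C * b) + D) + ((D * 3 ^ (C * b) : ℕ) : ℝ)) := by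
        have := err (D := D) (e := C * b) hJ2
        linarith
  rw [hFd] at hfin
  convert hfin

end Pool.Agent.Q274.GL
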