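import Pool.Agent.Q120.GL.Stm
import Pool.Agent.Q120.HL.H6

/-!
# Project GL, job RAT
-/

set_option autoImplicit false

namespace Pool.Agent.Q274.GL

open Finset Filter Topology MeasureTheory Pool.Agent.Q120.GM Pool.Agent.Q120.CL Pool.Agent.Q120.MG Pool.Agent.Q120.HL
open Pool.Agent.Q120.GL

theorem near_topK {a : ℝ} (ha : 0 < a) {u : ℕ → ℕ} (hu : ∀ᶠ k : ℕ in atTop, (k : ℝ) ^ a / 2 ≤ u k ∧ (u k : ℝ) ≤ 2 * (k : ℝ) ^ a) :
    Tendsto u atTop atTop := by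
  have h1 : Tendsto (fun k : ℕ => (k : ℝ) ^ a / 2) atTop atTop :=
    Tendsto.atTop_div_const (by norm_num) ((tendsto_rpow_atTop ha).comp tendsto_natCast_atTop_atTop)
  have h2 : Tendsto (fun k : ℕ => (u k : ℝ)) atTop atTop := tendsto_atTop_mono' _ (hu.mono (fun k hk => hk.1)) h1
  exact tendsto_natCast_atTop_iff.1 h2

theorem log_nearK {a : ℝ} {u : ℕ → ℕ} (hu : ∀ᶠ k : ℕ in atTop, (k : ℝ) ^ a / 2 ≤ u k ∧ (u k : ℝ) ≤ 2 * (k : ℝ) ^ a) :
    Tendsto (fun k : ℕ => Real.log (u k) / Real.log k) atTop (𝓝 a) := by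
  have h1 : Tendsto (fun k : ℕ => a - Real.log 2 / Real.log k) atTop (𝓝 a) := by
    have := (tendsto_const_nhds (x := Real.log 2)).div_atTop log_tend
    simpa using (tendsto_const_nhds (x := a)).sub this
  have h2 : Tendsto (fun k : ℕ => a + Real.log 2 / Real.log k) atTop (𝓝 a) := by
    have := (tendsto_const_nhds (x := Real.log 2)).div_atTop log_tend
    simpa using (tendsto_const_nhds (x := a)).add this
  have hk0 : ∀ᶠ k : ℕ in atTop, (0 : ℝ) < k := by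
    filter_upwards [eventually_ge_atTop 1] with k hk
    exact_mod_cast hk
  refine tendsto_of_tendsto_of_tendsto_of_le_of_le' h1 h2 ?_ ?_
  · filter_upwards [hu, log_tend.eventually_gt_atTop 0, hk0] with k h3 h4 h5
    rw [le_div_iff₀ h4, sub_mul, div_mul_cancel₀ _ h4.ne', ← Real.log_rpow h5, ← Real.log_div (by positivity) (by norm_num)]
    exact Real.log_le_log (by positivity) h3.1
  · filter_upwards [hu, log_tend.eventually_gt_atTop 0, hk0] with k h3 h4 h5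
    rw [div_le_iff₀ h4, add_mul, div_mul_cancel₀ _ h4.ne', ← Real.log_rpow h5, ← Real.log_mul (by positivity) (by norm_num)]
    have h6 : (0 : ℝ) < u k := lt_of_lt_of_le (by positivity) h3.1
    exact Real.log_le_log h6 (by linarith [h3.2])

theorem VratioK {a b : ℝ} (ha : 0 < a) (hb : 0 < b) {u v : ℕ → ℕ}
    (hu : ∀ᶠ k : ℕ in atTop, (k : ℝ) ^ a / 2 ≤ u k ∧ (u k : ℝ) ≤ 2 * (k : ℝ) ^ a)
    (hv : ∀ᶠ k : ℕ in atTop, (k : ℝ) ^ b / 2 ≤ v k ∧ (v k : ℝ) ≤ 2 * (k : ℝ) ^ b) :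
    Tendsto (fun k : ℕ => Vf (u k) / Vf (v k)) atTop (𝓝 (b / a)) := by
  obtain ⟨c, hc⟩ : ∃ c, c = Real.exp (-Real.eulerMascheroniConstant) := ⟨_, rfl⟩
  have hc0 : 0 < c := by rw [hc]; exact Real.exp_pos _
  have h1 := Vf_lim
  rw [← hc] at h1
  have h2 : Tendsto (fun k : ℕ => Vf (u k) * Real.log (u k)) atTop (𝓝 c) := h1.comp (near_topK ha hu)
  have h3 : Tendsto (fun k : ℕ => Vf (v k) * Real.log (v k)) atTop (𝓝 c) := h1.comp (near_topK hb hv)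
  have h4 := h2.div h3 hc0.ne'
  rw [div_self hc0.ne'] at h4
  have h5 := (log_nearK hv).div (log_nearK hu) ha.ne'
  have h6 := h4.mul h5
  rw [one_mul] at h6
  refine h6.congr' ?_
  have hu2 := (near_topK ha hu).eventually_ge_atTop 2
  have hv2 := (near_topK hb hv).eventually_ge_atTop 2
  filter_upwards [hu2, hv2, log_tend.eventually_gt_atTop 0] with k h7 h8 h9
  have e1 : 0 < Real.log (u k : ℝ) := Real.log_pos (by
    have : (2 : ℝ) ≤ u k := by exact_mod_cast h7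
    linarith)
  have e2 : 0 < Real.log (v k : ℝ) := Real.log_pos (by
    have : (2 : ℝ) ≤ v k := by exact_mod_cast h8
    linarith)
  have e3 := Vf_pos (v k)
  simp only [Pi.div_apply]
  field_simp

theorem ceil_nearK {a : ℝ} (ha : 0 < a) : ∀ᶠ k : ℕ in atTop, (k : ℝ) ^ a / 2 ≤ (⌈(k : ℝ) ^ a⌉₊ : ℕ) ∧
    ((⌈(k : ℝ) ^ a⌉₊ : ℕ) : ℝ) ≤ 2 * (k : ℝ) ^ a := by
  have h1 : Tendsto (fun k : ℕ => (k : ℝ) ^ a) atTop atTop := (tendsto_rpow_atTop ha).comp tendsto_natCast_atTop_atTop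
  filter_upwards [h1.eventually_ge_atTop 2] with k h2
  have h3 := Nat.le_ceil ((k : ℝ) ^ a)
  have h4 := Nat.ceil_lt_add_one (show 0 ≤ (k : ℝ) ^ a by linarith)
  exact ⟨by linarith, by linarith⟩

theorem low_backK {z : ℕ → ℕ} {θ δ : ℝ} (hθ1 : θ ≤ 1) (hδ : 0 < δ) (hδ1 : δ < θ)
    (hlow : ∀ δ : ℝ, 0 < δ → ∀ᶠ k : ℕ in atTop, (k : ℝ) ^ (θ - δ) ≤ z k) :
    ∀ᶠ k : ℕ in atTop, ∀ j, k ≤ 2 * j → (k : ℝ) ^ (θ - δ) ≤ z j := by
  obtain ⟨K, hK⟩ := eventually_atTop.1 (hlow (δ / 2) (by linarith))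
  have h1 : Tendsto (fun k : ℕ => (k : ℝ) ^ (δ / 2)) atTop atTop :=
    (tendsto_rpow_atTop (by linarith)).comp tendsto_natCast_atTop_atTop
  filter_upwards [eventually_ge_atTop (2 * K + 4), h1.eventually_ge_atTop 2] with k h3 h4 j h6
  refine le_trans ?_ (hK j (by omega))
  have h7 : (k : ℝ) ≤ 2 * j := by exact_mod_cast h6
  have hk0 : (0 : ℝ) < k := by
    have : 0 < k := by omega
    exact_mod_cast this
  have hj0 : (0 : ℝ) < j := by linarith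
  have h8 : (k : ℝ) / 2 ≤ j := by linarith
  calc (k : ℝ) ^ (θ - δ) ≤ ((k : ℝ) / 2) ^ (θ - δ / 2) := by
        rw [Real.div_rpow hk0.le (by norm_num)]
        have e1 : (2 : ℝ) ^ (θ - δ / 2) ≤ 2 := by
          calc (2 : ℝ) ^ (θ - δ / 2) ≤ 2 ^ (1 : ℝ) := Real.rpow_le_rpow_of_exponent_le (by norm_num) (by linarith)
            _ = 2 := Real.rpow_one 2
        have e2 : (0 : ℝ) < 2 ^ (θ - δ / 2) := by positivity
        rw [le_div_iff₀ e2]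
        have e3 : θ - δ / 2 = (θ - δ) + δ / 2 := by ring
        calc (k : ℝ) ^ (θ - δ) * 2 ^ (θ - δ / 2) ≤ (k : ℝ) ^ (θ - δ) * (k : ℝ) ^ (δ / 2) :=
              mul_le_mul_of_nonneg_left (e1.trans h4) (by positivity)
          _ = (k : ℝ) ^ (θ - δ / 2) := by rw [← Real.rpow_add hk0, e3]
    _ ≤ (j : ℝ) ^ (θ - δ / 2) := Real.rpow_le_rpow (by positivity) h8 (by linarith)

/-- **Job RAT.** -/
theorem t_RAT : J_RAT := by
  intro z θ κ hθ hθ1 hκ hlow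
  obtain ⟨δ, ⟨hδ1, hδ2⟩, hδ0⟩ : ∃ δ : ℝ, (κ < (θ - δ) / (1 + δ) ∧ δ < θ) ∧ 0 < δ := by
    have h1 : Tendsto (fun δ : ℝ => (θ - δ) / (1 + δ)) (𝓝 0) (𝓝 ((θ - 0) / (1 + 0))) := by
      refine Tendsto.div ?_ ?_ (by norm_num)
      · exact tendsto_const_nhds.sub tendsto_id
      · exact tendsto_const_nhds.add tendsto_id
    rw [sub_zero, add_zero, div_one] at h1
    have h2 := (h1.eventually (lt_mem_nhds hκ)).and (gt_mem_nhds hθ)
    have h3 : ∀ᶠ δ : ℝ in 𝓝[>] 0, (κ < (θ - δ) / (1 + δ) ∧ δ < θ) ∧ 0 < δ := by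
      filter_upwards [h2.filter_mono nhdsWithin_le_nhds, self_mem_nhdsWithin] with δ h4 h5
      exact ⟨h4, h5⟩
    exact h3.exists
  have ha : 0 < θ - δ := by linarith
  have hb : 0 < 1 + δ := by linarith
  have hV := VratioK ha hb (ceil_nearK ha) (ceil_nearK hb)
  have hE : Tendsto (fun k : ℕ => Real.exp (4 * (4 * (((k : ℝ) + 1) * Real.log 2)) / (⌈(k : ℝ) ^ (1 + δ)⌉₊ : ℕ)))
      atTop (𝓝 1) := by
    suffices hg : Tendsto (fun k : ℕ => 4 * (4 * (((k : ℝ) + 1) * Real.log 2)) / (⌈(k : ℝ) ^ (1 + δ)⌉₊ : ℕ))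
        atTop (𝓝 0) by
      have h0 := (Real.continuous_exp.tendsto 0).comp hg
      rw [Real.exp_zero] at h0
      exact h0
    have h1 : Tendsto (fun k : ℕ => 32 * Real.log 2 * (k : ℝ) ^ (-δ)) atTop (𝓝 0) := by
      have := ((tendsto_rpow_neg_atTop hδ0).comp tendsto_natCast_atTop_atTop).const_mul (32 * Real.log 2)
      rw [mul_zero] at this
      exact this
    have hl2 : 0 < Real.log 2 := Real.log_pos (by norm_num)
    refine tendsto_of_tendsto_of_tendsto_of_le_of_le' tendsto_const_nhds h1 ?_ ?_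
    · filter_upwards with k
      positivity
    · filter_upwards [eventually_ge_atTop 1] with k hk
      have hL : (0 : ℝ) < k := by exact_mod_cast hk
      have hL1 : (1 : ℝ) ≤ k := by exact_mod_cast hk
      have e1 := Nat.le_ceil ((k : ℝ) ^ (1 + δ))
      have e2 : 0 < (k : ℝ) ^ (1 + δ) := by positivity
      rw [div_le_iff₀ (by linarith)]
      have e4 : (k : ℝ) ^ (-δ) * (k : ℝ) ^ (1 + δ) = k := by
        rw [← Real.rpow_add hL]
        have : -δ + (1 + δ) = 1 := by ring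
        rw [this, Real.rpow_one]
      calc 4 * (4 * (((k : ℝ) + 1) * Real.log 2)) ≤ 32 * Real.log 2 * ((k : ℝ) ^ (-δ) * (k : ℝ) ^ (1 + δ)) := by
            rw [e4]
            nlinarith
        _ = 32 * Real.log 2 * (k : ℝ) ^ (-δ) * (k : ℝ) ^ (1 + δ) := by ring
        _ ≤ 32 * Real.log 2 * (k : ℝ) ^ (-δ) * (⌈(k : ℝ) ^ (1 + δ)⌉₊ : ℕ) :=
            mul_le_mul_of_nonneg_left e1 (by positivity)
  have hR := (hV.mul hE).const_mul κ
  have hlt : κ * ((1 + δ) / (θ - δ) * 1) < 1 := by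
    rw [mul_one, ← mul_div_assoc, div_lt_one ha]
    exact (lt_div_iff₀ hb).1 hδ1
  filter_upwards [hR.eventually (gt_mem_nhds hlt), low_backK hθ1 hδ0 hδ2 hlow, eventually_ge_atTop 1,
    (near_topK hb (ceil_nearK hb)).eventually_ge_atTop 2] with k h1 h2 h3 h4 n hn1 hn2 j hj
  rcases le_or_gt κ 0 with h6 | h6
  · exact le_trans (mul_nonpos_of_nonpos_of_nonneg h6 (SS_nonneg _)) (Sz_nonneg _ _)
  have hk1 : (1 : ℝ) ≤ k := by exact_mod_cast h3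
  have hDr : ({0, n} : Finset ℕ).card = 1 + 1 := by
    rw [card_pair (by omega)]
  have h7 := SS_upper (D := {0, n}) (r := 1) (H := n) (z := ⌈(k : ℝ) ^ (θ - δ)⌉₊) (z₁ := z j) (y := ⌈(k : ℝ) ^ (1 + δ)⌉₊)
    hDr hn1 (fun d hd => by
      rcases mem_insert.1 hd with h | h
      · omega
      · rw [mem_singleton.1 h]) h4 (Nat.ceil_le_ceil (Real.rpow_le_rpow_of_exponent_le hk1 (by linarith)))
      (Nat.ceil_le.2 (h2 j hj))
  rw [hDr, pow_one] at h7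
  have hy : (0 : ℝ) < (⌈(k : ℝ) ^ (1 + δ)⌉₊ : ℕ) := by
    have : 0 < ⌈(k : ℝ) ^ (1 + δ)⌉₊ := by omega
    exact_mod_cast this
  have h8 : Real.log n ≤ ((k : ℝ) + 1) * Real.log 2 := by
    have e1 : (n : ℝ) ≤ 2 ^ (k + 1) := by exact_mod_cast hn2.le
    have e2 := Real.log_le_log (by exact_mod_cast hn1) e1
    rw [Real.log_pow] at e2
    push_cast at e2
    exact e2
  have h9 : Real.exp (4 * ((((1 + 1 : ℕ) : ℝ)) ^ 2 * Real.log n) / (⌈(k : ℝ) ^ (1 + δ)⌉₊ : ℕ)) ≤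
      Real.exp (4 * (4 * (((k : ℝ) + 1) * Real.log 2)) / (⌈(k : ℝ) ^ (1 + δ)⌉₊ : ℕ)) := by
    apply Real.exp_le_exp.2
    apply div_le_div_of_nonneg_right _ hy.le
    push_cast
    nlinarith
  have hs := Sz_nonneg ({0, n} : Finset ℕ) (z j)
  have hvv : 0 ≤ Vf ⌈(k : ℝ) ^ (θ - δ)⌉₊ / Vf ⌈(k : ℝ) ^ (1 + δ)⌉₊ := (div_pos (Vf_pos _) (Vf_pos _)).le
  calc κ * SS {0, n} ≤ κ * (Sz {0, n} (z j) * (Vf ⌈(k : ℝ) ^ (θ - δ)⌉₊ / Vf ⌈(k : ℝ) ^ (1 + δ)⌉₊ *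
        Real.exp (4 * (4 * (((k : ℝ) + 1) * Real.log 2)) / (⌈(k : ℝ) ^ (1 + δ)⌉₊ : ℕ)))) := by
        refine mul_le_mul_of_nonneg_left (h7.trans ?_) h6.le
        exact mul_le_mul_of_nonneg_left (mul_le_mul_of_nonneg_left h9 hvv) hs
    _ = Sz {0, n} (z j) * (κ * (Vf ⌈(k : ℝ) ^ (θ - δ)⌉₊ / Vf ⌈(k : ℝ) ^ (1 + δ)⌉₊ *
        Real.exp (4 * (4 * (((k : ℝ) + 1) * Real.log 2)) / (⌈(k : ℝ) ^ (1 + δ)⌉₊ : ℕ)))) := by ring
    _ ≤ Sz {0, n} (z j) * 1 := mul_le_mul_of_nonneg_left h1.le hs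
    _ = Sz {0, n} (z j) := mul_one _

end Pool.Agent.Q274.GL
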